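import Pool.Agent.H84.ND.Targets4
import Pool.Agent.H19.SL.FML

/-!
# MP_70ba79_ag, board ndc_modules: row FLN (finitely many families, nodal curves)
-/

set_option autoImplicit false

namespace Pool.Agent.H19.ND

open MvPolynomial SC Pool.Agent.H27.LV Pool.Agent.H84.SM Pool.Agent.H84.SL Pool.Agent.H19.SL

theorem prime_case' (hGLN : Pool.Agent.H84.ND.T_GLN) (k : Type) [Field k] [IsAlgClosed k] [CharZero k]
    (G : MvPolynomial (Fin 3) k) (d : ℕ) (hd : 4 ≤ d) (hG : G.IsHomogeneous d)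
    (hN : ∀ s, Pool.Agent.H84.ND.Sing G s → Pool.Agent.H84.ND.Node G s) (e m : ℕ) (he : 1 ≤ e)
    (q : Ideal (RR k e)) (hq : q.IsPrime) (hI : II k e m G ≤ q) :
    ∃ (N : ℕ) (Ψ : MvPolynomial (Fin 3) k), Ψ ≠ 0 ∧ Ψ.IsHomogeneous N ∧
      ((aeval (UU k e) G).coeff m ∉ q → (∃ i, (UU k e i).coeff e ∉ q) →
        (∃ i, (UU k e i).coeff 0 ∉ q) → ∀ j, (aeval (UU k e) Ψ).coeff j ∈ q) := by
  by_cases hc : (aeval (UU k e) G).coeff m ∉ q ∧ (∃ i, (UU k e i).coeff e ∉ q) ∧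
        (∃ i, (UU k e i).coeff 0 ∉ q)
  · obtain ⟨h1, ⟨i1, h2⟩, ⟨i2, h3⟩⟩ := hc
    let L : Type := FractionRing (RR k e ⧸ q)
    let ρ : RR k e →ₐ[k] L := (IsScalarTower.toAlgHom k (RR k e ⧸ q) L).comp (Ideal.Quotient.mkₐ k q)
    have hker : ∀ z, ρ z = 0 ↔ z ∈ q := by
      intro z
      have e1 : ρ z = algebraMap (RR k e ⧸ q) L (Ideal.Quotient.mk q z) := rfl
      rw [e1, ← map_zero (algebraMap (RR k e ⧸ q) L),
        (IsFractionRing.injective (RR k e ⧸ q) L).eq_iff, Ideal.Quotient.eq_zero_iff_mem]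
    have hcoef : ∀ (A : Polynomial (RR k e)) (n : ℕ),
        (A.map (ρ : RR k e →+* L)).coeff n = ρ (A.coeff n) := fun A n => by
      rw [Polynomial.coeff_map]; rfl
    have hP : aeval (fun i => (UU k e i).map (ρ : RR k e →+* L)) G =
        Polynomial.C (ρ ((aeval (UU k e) G).coeff m)) * Polynomial.X ^ m := by
      rw [← map_aeval_poly ρ (UU k e) G]
      ext n
      rw [hcoef, Polynomial.coeff_C_mul_X_pow]
      by_cases hn : n = m
      · rw [if_pos hn, hn]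
      · rw [if_neg hn, hker]
        exact hI (Ideal.subset_span ⟨n, hn, rfl⟩)
    obtain ⟨N, Ψ, hΨ, hΨN, hΨ0⟩ := hGLN k G d hd hG hN L
      (fun i => (UU k e i).map (ρ : RR k e →+* L)) (ρ ((aeval (UU k e) G).coeff m)) m e
      (fun h => h1 ((hker _).1 h)) he
      (fun i => (Polynomial.natDegree_map_le).trans (UU_natDegree k e i))
      ⟨i1, by
        change ((UU k e i1).map (ρ : RR k e →+* L)).coeff e ≠ 0
        rw [hcoef]; exact fun h => h2 ((hker _).1 h)⟩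
      ⟨i2, by
        change ((UU k e i2).map (ρ : RR k e →+* L)).coeff 0 ≠ 0
        rw [hcoef]; exact fun h => h3 ((hker _).1 h)⟩ hP
    refine ⟨N, Ψ, hΨ, hΨN, fun _ _ _ j => ?_⟩
    rw [← map_aeval_poly ρ (UU k e) Ψ] at hΨ0
    rw [← hker, ← hcoef, hΨ0, Polynomial.coeff_zero]
  · refine ⟨0, 1, one_ne_zero, MvPolynomial.isHomogeneous_one _ _, fun a b c => ?_⟩
    exact absurd ⟨a, b, c⟩ hc

theorem pf_FLN (hGLN : Pool.Agent.H84.ND.T_GLN) : Pool.Agent.H84.ND.T_FLN := by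
  classical
  intro k _ _ _ G d hd hG hN e m he
  have hfin : (II k e m G).minimalPrimes.Finite := Ideal.finite_minimalPrimes_of_isNoetherianRing _ _
  have hpr : ∀ q : Ideal (RR k e), ∃ (N : ℕ) (Ψ : MvPolynomial (Fin 3) k), Ψ ≠ 0 ∧
      Ψ.IsHomogeneous N ∧ (q ∈ (II k e m G).minimalPrimes →
      ((aeval (UU k e) G).coeff m ∉ q → (∃ i, (UU k e i).coeff e ∉ q) →
        (∃ i, (UU k e i).coeff 0 ∉ q) → ∀ j, (aeval (UU k e) Ψ).coeff j ∈ q)) := by
    intro q
    by_cases hq : q ∈ (II k e m G).minimalPrimes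
    · obtain ⟨N, Ψ, h1, h2, h3⟩ := prime_case' hGLN k G d hd hG hN e m he q hq.1.1 hq.1.2
      exact ⟨N, Ψ, h1, h2, fun _ => h3⟩
    · exact ⟨0, 1, one_ne_zero, MvPolynomial.isHomogeneous_one _ _, fun h => absurd h hq⟩
  choose N Ψ hΨ hΨN hΨq using hpr
  refine ⟨∑ q ∈ hfin.toFinset, N q, ∏ q ∈ hfin.toFinset, Ψ q,
    Finset.prod_ne_zero_iff.2 fun q _ => hΨ q,
    MvPolynomial.IsHomogeneous.prod _ _ _ fun q _ => hΨN q, ?_⟩
  intro p c hc hdeg hpe hp0 hp
  -- the point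
  let ev : RR k e →ₐ[k] k := aeval (fun x : Fin 3 × Fin (e + 1) => (p x.1).coeff (x.2 : ℕ))
  have hcoef : ∀ (A : Polynomial (RR k e)) (n : ℕ),
      (A.map (ev : RR k e →+* k)).coeff n = ev (A.coeff n) := fun A n => by
    rw [Polynomial.coeff_map]; rfl
  have hU : ∀ i, (UU k e i).map (ev : RR k e →+* k) = p i := by
    intro i
    ext n
    rw [hcoef]
    rcases lt_or_ge e n with hn | hn
    · rw [UU_coeff_ge k e i n hn, map_zero, Polynomial.coeff_eq_zero_of_natDegree_lt]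
      exact (hdeg i).trans_lt hn
    · have := UU_coeff k e i ⟨n, Nat.lt_succ_of_le hn⟩
      change (UU k e i).coeff n = _ at this
      rw [this]
      change aeval _ (X _) = _
      rw [aeval_X]
  have hev : ∀ Φ : MvPolynomial (Fin 3) k, (aeval (UU k e) Φ).map (ev : RR k e →+* k) =
      aeval p Φ := by
    intro Φ
    rw [map_aeval_poly ev (UU k e) Φ]
    exact congrArg (fun z : Fin 3 → Polynomial k => aeval z Φ) (funext hU)
  have hprime : (RingHom.ker (ev : RR k e →+* k)).IsPrime := RingHom.ker_isPrime _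
  have hIle : II k e m G ≤ RingHom.ker (ev : RR k e →+* k) := by
    unfold II
    rw [Ideal.span_le]
    rintro z ⟨j, hj, rfl⟩
    change ev ((aeval (UU k e) G).coeff j) = 0
    rw [← hcoef, hev, hp, Polynomial.coeff_C_mul_X_pow, if_neg hj]
  obtain ⟨q, hq, hqle⟩ := Ideal.exists_minimalPrimes_le hIle
  have key := hΨq q hq
    (fun h => by
      have h1 : ev ((aeval (UU k e) G).coeff m) = 0 := hqle h
      rw [← hcoef, hev, hp, Polynomial.coeff_C_mul_X_pow, if_pos rfl] at h1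
      exact hc h1)
    (by
      obtain ⟨i, hi⟩ := hpe
      refine ⟨i, fun h => hi ?_⟩
      have h1 : ev ((UU k e i).coeff e) = 0 := hqle h
      rwa [← hcoef, hU] at h1)
    (by
      obtain ⟨i, hi⟩ := hp0
      refine ⟨i, fun h => hi ?_⟩
      have h1 : ev ((UU k e i).coeff 0) = 0 := hqle h
      rwa [← hcoef, hU] at h1)
  have hzero : aeval p (Ψ q) = 0 := by
    rw [← hev]
    ext n
    rw [hcoef, Polynomial.coeff_zero]
    exact hqle (key n)
  rw [map_prod]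
  exact Finset.prod_eq_zero (hfin.mem_toFinset.2 hq) hzero

end Pool.Agent.H19.ND
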