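import Pool.Agent.H84.ND.Targets4
import Pool.Agent.H19.SL.GNL

/-!
# MP_70ba79_ag, board ndc_modules: row GLN (a family of curves does not move, nodal curves)
-/

set_option autoImplicit false

namespace Pool.Agent.H19.ND

open MvPolynomial SC Pool.Agent.H27.LV Pool.Agent.H84.SM Pool.Agent.H84.SL Pool.Agent.H19.SL
open scoped TensorProduct

theorem pf_GLN (hGNN : Pool.Agent.H84.ND.T_GNN) (hDRV : Pool.Agent.H84.SL.T_DRV)
    (hHNZ : Pool.Agent.H84.SL.T_HNZ) : Pool.Agent.H84.ND.T_GLN := by
  intro k _ _ _ G d hd hG hN L _ _ P c m e hc he hdeg hPe hP0 hP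
  by_contra hcon
  push Not at hcon
  have hinj := IsFractionRing.injective (Polynomial L) (MF L)
  -- the point in the field of rational functions
  set p : Fin 3 → MF L := fun i => algebraMap (Polynomial L) (MF L) (P i) with hp
  have hhom : ∀ (N : ℕ) (Ψ : MvPolynomial (Fin 3) k), Ψ ≠ 0 → Ψ.IsHomogeneous N →
      aeval p Ψ ≠ 0 := by
    intro N Ψ h1 h2 h3
    have h4 := MvPolynomial.comp_aeval_apply (B := MF L) P
      (IsScalarTower.toAlgHom k (Polynomial L) (MF L)) Ψ
    have h5 : algebraMap (Polynomial L) (MF L) (aeval P Ψ) = 0 := h4.trans h3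
    exact hcon N Ψ h1 h2 ((map_eq_zero_iff _ hinj).1 h5)
  have h0 : P 0 ≠ 0 := by
    have := hcon 1 (X 0) (X_ne_zero 0) (isHomogeneous_X _ _)
    rwa [aeval_X] at this
  have hp0 : p 0 ≠ 0 := by
    intro h1
    exact h0 ((map_eq_zero_iff _ hinj).1 h1)
  obtain ⟨der, hder⟩ := exists_der L
  -- some ratio has a nonzero derivative
  have key : ∀ i, Polynomial.derivative (P i) * P 0 ≠ P i * Polynomial.derivative (P 0) →
      der (p i / p 0) ≠ 0 := by
    intro i hi h1
    apply hi
    have h2 : p i = p 0 * (p i / p 0) := by field_simp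
    have h3 : der (p i) = p i / p 0 * der (p 0) := by
      have := Derivation.leibniz der (p 0) (p i / p 0)
      rw [← h2, h1, smul_zero, zero_add, smul_eq_mul] at this
      exact this
    have h4 : der (p i) * p 0 = p i * der (p 0) := by
      rw [h3]; field_simp
    have h5 : algebraMap (Polynomial L) (MF L) (Polynomial.derivative (P i) * P 0) =
        algebraMap (Polynomial L) (MF L) (P i * Polynomial.derivative (P 0)) := by
      rw [map_mul, map_mul, ← hder, ← hder]
      exact h4
    exact hinj h5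
  have hex : ∃ i, Polynomial.derivative (P i) * P 0 ≠ P i * Polynomial.derivative (P 0) := by
    by_contra h1
    push Not at h1
    exact not_const G d hG (by omega) P c m e hc he hPe hP0 hP h0 h1
  -- the derivation
  have hΔ : ∃ Δ : Derivation k (MF L) (MF L), Δ (p 1 / p 0) * der (p 2 / p 0) -
      Δ (p 2 / p 0) * der (p 1 / p 0) ≠ 0 := by
    obtain ⟨i, hi⟩ := hex
    have hd' := key i hi
    have hi' : i = 0 ∨ i = 1 ∨ i = 2 := by
      fin_cases i <;> simp
    rcases hi' with rfl | rfl | rfl
    · exact absurd (mul_comm _ _) hi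
    · obtain ⟨Δ, hΔ1, hΔ2⟩ := hDRV k (MF L) _ _ (hHNZ k (MF L) p hhom 0 1 2 (by decide) (by decide)
        (by decide))
      refine ⟨Δ, ?_⟩
      rw [hΔ1, zero_mul, zero_sub, neg_ne_zero]
      exact mul_ne_zero hΔ2 hd'
    · obtain ⟨Δ, hΔ1, hΔ2⟩ := hDRV k (MF L) _ _ (hHNZ k (MF L) p hhom 0 2 1 (by decide) (by decide)
        (by decide))
      refine ⟨Δ, ?_⟩
      rw [hΔ1, zero_mul, sub_zero]
      exact mul_ne_zero hΔ2 hd'
  obtain ⟨Δ, hΔ⟩ := hΔ
  have hD := det_ne der hder Δ P h0 hΔ
  -- the three vectors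
  set δ : L → MF L := fun a : L => Δ (algebraMap L (MF L) a) with hδ
  have hδ0 : δ 0 = 0 := by rw [hδ]; simp
  let δ' : Derivation k L (MF L) := Δ.compAlgebraMap L
  have hδ' : ∀ A : Polynomial L, pd δ' A = pd δ A := fun A => rfl
  set a : Fin 3 → Polynomial (MF L) := fun i => (P i).map (algebraMap L (MF L)) with ha
  set b : Fin 3 → Polynomial (MF L) := fun i => pd δ (P i) with hb
  set v : Fin 3 → Polynomial (MF L) := fun i =>
    Polynomial.X * (Polynomial.derivative (P i)).map (algebraMap L (MF L)) with hv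
  have hv' : ∀ i, v i = Polynomial.X * Polynomial.derivative (a i) := fun i => by
    rw [hv, ha]
    simp only [Polynomial.derivative_map]
  have na : ∀ i, (a i).natDegree ≤ e := fun i => Polynomial.natDegree_map_le.trans (hdeg i)
  have nb : ∀ i, (b i).natDegree ≤ e := fun i => pd_natDegree δ hδ0 _ e (hdeg i)
  have nv : ∀ i, (v i).natDegree ≤ e := fun i => by
    rw [hv']; exact X_der_natDegree _ e (na i)
  apply hD
  refine both_ends (dt a b v) d e m hd he (dt_natDegree e a b v na nb nv)
    (hGNN k G d (by omega) hG hN L (MF L) δ' P c m hc hP0 hP) ?_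
  intro hm
  -- the reflected family
  have hQ : aeval (fun i => (P i).reflect e) G =
      Polynomial.C c * Polynomial.X ^ (d * e - m) := by
    rw [reflect_aeval G d e hG P hdeg, hP, Polynomial.reflect_C_mul_X_pow,
      Polynomial.revAt_le hm]
  have hQ0 : ∃ i, ((P i).reflect e).coeff 0 ≠ 0 := by
    obtain ⟨i, hi⟩ := hPe
    refine ⟨i, ?_⟩
    rw [Polynomial.coeff_reflect, Polynomial.revAt_zero]
    exact hi
  have h1 := hGNN k G d (by omega) hG hN L (MF L) δ' (fun i => (P i).reflect e) c (d * e - m) hc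
    hQ0 hQ
  have e1 : ∀ i, ((P i).reflect e).map (algebraMap L (MF L)) = (a i).reflect e := fun i =>
    (Polynomial.reflect_map _ _ _).symm
  have e2 : ∀ i, pd δ' ((P i).reflect e) = (b i).reflect e := fun i => by
    rw [hδ', pd_reflect δ hδ0]
  have e3 : ∀ i, Polynomial.X * (Polynomial.derivative ((P i).reflect e)).map
      (algebraMap L (MF L)) = Polynomial.C (e : MF L) * (a i).reflect e - (v i).reflect e := by
    intro i
    rw [← Polynomial.derivative_map, e1, X_derivative_reflect (a i) e (na i), hv']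
  simp only [e1, e2, e3] at h1
  have e4 : dt (fun i => (a i).reflect e) (fun i => (b i).reflect e)
      (fun i => Polynomial.C (e : MF L) * (a i).reflect e - (v i).reflect e) =
      - (dt a b v).reflect (3 * e) := by
    rw [← dt_reflect e a b v na nb nv, dt_def, dt_def]
    ring
  rw [e4] at h1
  exact (dvd_neg.1 h1)

end Pool.Agent.H19.ND
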